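import Pool.Agent.Helper79.MinkForm

/-!
# Auxiliary facts for the own statement on MP_2ea006_lc

Helper79's formula `phi` in the dimensions three and four, and the projection of Minkowski spaces.
-/

set_option autoImplicit false

namespace Pool.Agent.Helper85.MinkO

open Pool.Agent.Helper79.Mink

/-- the irreflexive causal order of `(1+d)`-dimensional Minkowski space -/
def Bf (d : ℕ) (x y : Fin (d + 1) → ℝ) : Prop :=
  Real.sqrt (∑ i : Fin d, (y i.succ - x i.succ) ^ 2) ≤ y 0 - x 0 ∧ x ≠ y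

theorem Bf_iff (d : ℕ) (x y : Fin (d + 1) → ℝ) :
    Bf d x y ↔ x 0 < y 0 ∧ ∑ i : Fin d, (y i.succ - x i.succ) ^ 2 ≤ (y 0 - x 0) ^ 2 := by
  unfold Bf
  constructor
  · rintro ⟨h1, h2⟩
    have h0 : 0 ≤ y 0 - x 0 := (Real.sqrt_nonneg _).trans h1
    have h3 : ∑ i : Fin d, (y i.succ - x i.succ) ^ 2 ≤ (y 0 - x 0) ^ 2 :=
      (Real.sqrt_le_left h0).1 h1
    refine ⟨?_, h3⟩
    rcases lt_or_eq_of_le h0 with h | h
    · linarith
    · exfalso
      apply h2
      rw [← h] at h3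
      have h4 : ∑ i : Fin d, (y i.succ - x i.succ) ^ 2 = 0 :=
        le_antisymm (by simpa using h3) (Finset.sum_nonneg fun i _ => sq_nonneg _)
      have h5 := (Finset.sum_eq_zero_iff_of_nonneg fun i _ => sq_nonneg _).1 h4
      funext i
      refine Fin.cases ?_ (fun j => ?_) i
      · linarith
      · have := h5 j (Finset.mem_univ j)
        have := pow_eq_zero_iff (two_ne_zero) |>.mp this
        linarith
  · rintro ⟨h1, h2⟩
    refine ⟨(Real.sqrt_le_left (by linarith)).2 h2, ?_⟩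
    rintro rfl
    exact lt_irrefl _ h1

/-- evaluation in a frame is transported along bounded morphisms -/
theorem ev_pmorph {W W' : Type} (R : W → W → Prop) (R' : W' → W' → Prop) (f : W' → W)
    (forth : ∀ x y, R' x y → R (f x) (f y))
    (backF : ∀ x q, R (f x) q → ∃ y, f y = q ∧ R' x y)
    (backP : ∀ x q, R q (f x) → ∃ y, f y = q ∧ R' y x) (v : ℕ → Set W) (a : Fml) :
    ∀ x, x ∈ ev R' (fun k => f ⁻¹' v k) a ↔ f x ∈ ev R v a := by
  induction a with
  | atom k => intro x; rfl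
  | neg a ih => intro x; rw [mem_neg, mem_neg, ih]
  | conj a b iha ihb => intro x; rw [mem_conj, mem_conj, iha, ihb]
  | fut a ih =>
    intro x
    rw [mem_fut, mem_fut]
    constructor
    · rintro ⟨y, hy, hxy⟩
      exact ⟨f y, (ih y).1 hy, forth x y hxy⟩
    · rintro ⟨q, hq, hxq⟩
      obtain ⟨y, rfl, hxy⟩ := backF x q hxq
      exact ⟨y, (ih y).2 hq, hxy⟩
  | past a ih =>
    intro x
    rw [mem_past, mem_past]
    constructor
    · rintro ⟨y, hy, hxy⟩
      exact ⟨f y, (ih y).1 hy, forth y x hxy⟩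
    · rintro ⟨q, hq, hxq⟩
      obtain ⟨y, rfl, hxy⟩ := backP x q hxq
      exact ⟨y, (ih y).2 hq, hxy⟩

/-- satisfiability in the frame of dimension `1 + d` -/
def SatD (d : ℕ) (a : Fml) : Prop := ∃ (v : ℕ → Set (Fin (d + 1) → ℝ)) (x : Fin (d + 1) → ℝ), x ∈ ev (Bf d) v a

/-- forget the last coordinate -/
def pj (d : ℕ) (x : Fin (d + 2) → ℝ) : Fin (d + 1) → ℝ := fun i => x i.castSucc

/-- change the first coordinates -/
def lf (d : ℕ) (x : Fin (d + 2) → ℝ) (q : Fin (d + 1) → ℝ) : Fin (d + 2) → ℝ :=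
  Fin.snoc q (x (Fin.last (d + 1)))

theorem pj_lf (d : ℕ) (x : Fin (d + 2) → ℝ) (q : Fin (d + 1) → ℝ) : pj d (lf d x q) = q := by
  funext i
  simp [pj, lf]

theorem sum_step (d : ℕ) (x y : Fin (d + 2) → ℝ) :
    ∑ i : Fin (d + 1), (y i.succ - x i.succ) ^ 2
      = ∑ i : Fin d, (pj d y i.succ - pj d x i.succ) ^ 2
        + (y (Fin.last (d + 1)) - x (Fin.last (d + 1))) ^ 2 := by
  rw [Fin.sum_univ_castSucc]
  rfl

theorem SatD_step (d : ℕ) (a : Fml) (h : SatD d a) : SatD (d + 1) a := by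
  obtain ⟨v, x, hx⟩ := h
  refine ⟨fun k => pj d ⁻¹' v k, Fin.snoc x 0, ?_⟩
  have hpx : pj d (Fin.snoc x (0 : ℝ)) = x := by
    funext i
    simp [pj]
  refine (ev_pmorph (Bf d) (Bf (d + 1)) (pj d) ?_ ?_ ?_ v a _).2 (by rw [hpx]; exact hx)
  · intro x y hxy
    rw [Bf_iff] at hxy ⊢
    rw [sum_step] at hxy
    refine ⟨hxy.1, ?_⟩
    have := sq_nonneg (y (Fin.last (d + 1)) - x (Fin.last (d + 1)))
    have h2 := hxy.2
    change _ ≤ (y 0 - x 0) ^ 2
    linarith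
  · intro x q hxq
    refine ⟨lf d x q, pj_lf d x q, ?_⟩
    rw [Bf_iff] at hxq ⊢
    rw [sum_step, pj_lf]
    have e0 : lf d x q 0 = q 0 := congrFun (pj_lf d x q) 0
    have el : lf d x q (Fin.last (d + 1)) = x (Fin.last (d + 1)) := by simp [lf]
    rw [e0, el, sub_self]
    have h1 := hxq.1
    have h2 := hxq.2
    refine ⟨h1, ?_⟩
    rw [zero_pow two_ne_zero, add_zero]
    exact h2
  · intro x q hxq
    refine ⟨lf d x q, pj_lf d x q, ?_⟩
    rw [Bf_iff] at hxq ⊢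
    rw [sum_step, pj_lf]
    have e0 : lf d x q 0 = q 0 := congrFun (pj_lf d x q) 0
    have el : lf d x q (Fin.last (d + 1)) = x (Fin.last (d + 1)) := by simp [lf]
    rw [e0, el, sub_self]
    have h1 := hxq.1
    have h2 := hxq.2
    refine ⟨h1, ?_⟩
    rw [zero_pow two_ne_zero, add_zero]
    exact h2

theorem SatD_mono {d e : ℕ} (h : d ≤ e) (a : Fml) (hd : SatD d a) : SatD e a := by
  induction h with
  | refl => exact hd
  | step _ ih => exact SatD_step _ a ih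

/-! ## Dimensions three and four (after `Pool.Agent.S14541`, helper79) -/

lemma Bf2_iff (x y : Fin 3 → ℝ) : Bf 2 x y ↔ R3 x y := by
  rw [Bf_iff]
  have hs : ∑ i : Fin 2, (y i.succ - x i.succ) ^ 2 = (y 1 - x 1) ^ 2 + (y 2 - x 2) ^ 2 := by
    rw [Fin.sum_univ_two]; rfl
  rw [hs]
  unfold R3 Cau B
  simp only [Pi.sub_apply]
  constructor
  · rintro ⟨h1, h2⟩
    exact ⟨by linarith, by nlinarith⟩
  · rintro ⟨h1, h2⟩
    exact ⟨by linarith, by nlinarith⟩

lemma Bf3_iff (x y : Fin 4 → ℝ) : Bf 3 x y ↔ R4 x y := by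
  rw [Bf_iff]
  have hs : ∑ i : Fin 3, (y i.succ - x i.succ) ^ 2
      = (y 1 - x 1) ^ 2 + (y 2 - x 2) ^ 2 + (y 3 - x 3) ^ 2 := by
    rw [Fin.sum_univ_three]; rfl
  rw [hs]
  rfl

lemma dir3 (x y : Fin 3 → ℝ) : ∃ z, R3 x z ∧ R3 y z := by
  set K : ℝ := |x 0| + |x 1| + |x 2| + |y 0| + |y 1| + |y 2| + 1 with hK
  have a0 := abs_nonneg (x 0)
  have a1 := abs_nonneg (x 1)
  have a2 := abs_nonneg (x 2)
  have b0 := abs_nonneg (y 0)
  have b1 := abs_nonneg (y 1)
  have b2 := abs_nonneg (y 2)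
  have key : ∀ w : Fin 3 → ℝ, |w 0| + |w 1| + |w 2| + 1 ≤ K → R3 w ![K, 0, 0] := by
    intro w hw
    unfold R3 Cau B
    simp
    have c0 := abs_nonneg (w 0)
    have c1 := abs_nonneg (w 1)
    have c2 := abs_nonneg (w 2)
    have d0 := le_abs_self (w 0)
    have hpos : |w 1| + |w 2| + 1 ≤ K - w 0 := by linarith
    have e1 : w 1 * w 1 = |w 1| * |w 1| := (abs_mul_abs_self _).symm
    have e2 : w 2 * w 2 = |w 2| * |w 2| := (abs_mul_abs_self _).symm
    constructor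
    · linarith
    · nlinarith
  exact ⟨![K, 0, 0], key x (by linarith), key y (by linarith)⟩

lemma dir4 (x y : Fin 4 → ℝ) : ∃ z, R4 x z ∧ R4 y z := by
  set K : ℝ := |x 0| + |x 1| + |x 2| + |x 3| + |y 0| + |y 1| + |y 2| + |y 3| + 1 with hK
  have a0 := abs_nonneg (x 0)
  have a1 := abs_nonneg (x 1)
  have a2 := abs_nonneg (x 2)
  have a3 := abs_nonneg (x 3)
  have b0 := abs_nonneg (y 0)
  have b1 := abs_nonneg (y 1)
  have b2 := abs_nonneg (y 2)
  have b3 := abs_nonneg (y 3)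
  have key : ∀ w : Fin 4 → ℝ, |w 0| + |w 1| + |w 2| + |w 3| + 1 ≤ K → R4 w ![K, 0, 0, 0] := by
    intro w hw
    unfold R4
    simp
    have c0 := abs_nonneg (w 0)
    have c1 := abs_nonneg (w 1)
    have c2 := abs_nonneg (w 2)
    have c3 := abs_nonneg (w 3)
    have d0 := le_abs_self (w 0)
    have hpos : |w 1| + |w 2| + |w 3| + 1 ≤ K - w 0 := by linarith
    have e1 : w 1 ^ 2 = |w 1| ^ 2 := (sq_abs _).symm
    have e2 : w 2 ^ 2 = |w 2| ^ 2 := (sq_abs _).symm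
    have e3 : w 3 ^ 2 = |w 3| ^ 2 := (sq_abs _).symm
    constructor
    · linarith
    · rw [e1, e2, e3]
      have h1 : (|w 1| + |w 2| + |w 3|) ^ 2 ≤ (K - w 0) ^ 2 :=
        pow_le_pow_left₀ (by positivity) (by linarith) 2
      nlinarith [mul_nonneg c1 c2, mul_nonneg c1 c3, mul_nonneg c2 c3]
  exact ⟨![K, 0, 0, 0], key x (by linarith), key y (by linarith)⟩

/-- the formula is not satisfiable in dimension three -/
lemma unsat3 (v : ℕ → Set (Fin 3 → ℝ)) (x : Fin 3 → ℝ) : x ∉ ev (Bf 2) v phi := by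
  have hQ : Bf 2 = R3 := by funext a b; exact propext (Bf2_iff a b)
  rw [hQ, phi_iff R3 dir3]
  rintro ⟨⟨h, h', l⟩, ⟨a, ha, ha'⟩, ⟨b, hb, hb'⟩⟩
  have := unique3 h h' l ha hb
  rw [this] at ha'
  exact hb' ha'

/-- valuation in dimension four -/
noncomputable def val4 (k : ℕ) : Set (Fin 4 → ℝ) :=
  match k with
  | 0 => mN
  | 1 => mC 0
  | 2 => mC 1
  | 3 => mC 2
  | 4 => mC 3
  | 5 => mD
  | 6 => {x | -x ∈ mC 0}
  | 7 => {x | -x ∈ mC 1}
  | 8 => {x | -x ∈ mC 2}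
  | 9 => {x | -x ∈ mC 3}
  | 10 => {x | -x ∈ mD}
  | 11 => mV 0
  | 12 => mV 1
  | 13 => mV 2
  | 14 => mV 3
  | _ => {x | 0 < x 3}

/-- the formula is satisfiable in dimension four -/
lemma sat4 : (0 : Fin 4 → ℝ) ∈ ev (Bf 3) val4 phi := by
  have hQ : Bf 3 = R4 := by funext a b; exact propext (Bf3_iff a b)
  rw [hQ, phi_iff R4 dir4]
  have e1 : (fun i : Fin 4 => val4 (1 + i.val)) = mC := by
    funext i; fin_cases i <;> rfl
  have e2 : (fun i : Fin 4 => val4 (6 + i.val)) = fun i => {x | -x ∈ mC i} := by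
    funext i; fin_cases i <;> rfl
  have e3 : (fun i : Fin 4 => val4 (11 + i.val)) = mV := by
    funext i; fin_cases i <;> rfl
  have e4 : {x : Fin 4 → ℝ | -x ∈ mN} = mN := by
    ext x; simp [mN]
  rw [e1, e2, e3]
  refine ⟨⟨cond4, ?_, link4⟩, ⟨![0, 0, 0, 1], ?_, ?_⟩, ⟨0, ?_, ?_⟩⟩
  · have := cond4'
    rw [e4] at this
    exact this
  · show _ ∈ mN
    simp [mN]
  · show (0 : ℝ) < _
    simp
  · show _ ∈ mN
    simp [mN]
  · show ¬ (0 : ℝ) < _
    simp

/-- helper79's formula is satisfiable in dimension `1 + d` exactly for `3 ≤ d` -/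
theorem SatD_phi (d : ℕ) : SatD d phi ↔ 3 ≤ d := by
  constructor
  · intro h
    by_contra hd
    obtain ⟨v, x, hx⟩ := SatD_mono (show d ≤ 2 by omega) phi h
    exact unsat3 v x hx
  · intro h
    exact SatD_mono h phi ⟨val4, 0, sat4⟩

end Pool.Agent.Helper85.MinkO
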