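import Mathlib
import Pool.Agent.Helper54.TSCyl

/-!
# Auxiliary facts for the own statement on MP_4bb23b

* the circle has a totally skew embedding in four-space: `z ↦ (z, z ^ 2)`;
* totally skew embeddings of Euclidean spaces restrict to smaller Euclidean spaces;
* the plane has no totally skew embedding in five-space.
-/

set_option autoImplicit false

namespace Pool.Agent.Helper85.TSO

open Topology Filter Set Module Function
open scoped Manifold
open Pool.Agent.Helper54.TS

/-! ## The circle -/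

/-- The algebra behind the embedding `z ↦ (z, z ^ 2)` of the circle. -/
theorem circle_alg {z w : ℂ} (hz : z ≠ 0) (hzw : z ≠ w) (hn : ‖z‖ = ‖w‖) {a b t : ℝ}
    (h1 : (a : ℂ) * (z * Complex.I) + (b : ℂ) * (w * Complex.I) + (t : ℂ) * (w - z) = 0)
    (h2 : (a : ℂ) * (2 * z * (z * Complex.I)) + (b : ℂ) * (2 * w * (w * Complex.I))
      + (t : ℂ) * (w ^ 2 - z ^ 2) = 0) : a = 0 ∧ b = 0 ∧ t = 0 := by
  have hI : Complex.I ≠ 0 := Complex.I_ne_zero
  have hwz : w - z ≠ 0 := sub_ne_zero.2 (Ne.symm hzw)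
  have e1 : (w - z) * Complex.I * ((a : ℂ) * z - (b : ℂ) * w) = 0 := by
    linear_combination (w + z) * h1 - h2
  have e2 : (a : ℂ) * z = (b : ℂ) * w := by
    rcases mul_eq_zero.1 e1 with h | h
    · exact absurd h (mul_ne_zero hwz hI)
    · exact sub_eq_zero.1 h
  have e3 : |a| = |b| := by
    have h := congrArg norm e2
    rw [norm_mul, norm_mul, Complex.norm_real, Complex.norm_real, hn] at h
    have hw : ‖w‖ ≠ 0 := by rw [← hn]; exact norm_ne_zero_iff.2 hz
    exact mul_right_cancel₀ hw h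
  rcases abs_eq_abs.1 e3 with h | h
  · -- `a = b`, hence both vanish
    subst h
    have ha : a = 0 := by
      by_contra ha
      have : z = w := mul_left_cancel₀ (Complex.ofReal_ne_zero.2 ha) e2
      exact hzw this
    subst ha
    refine ⟨rfl, rfl, ?_⟩
    have h3 : (t : ℂ) * (w - z) = 0 := by simpa using h1
    rcases mul_eq_zero.1 h3 with h | h
    · exact_mod_cast h
    · exact absurd h hwz
  · -- `a = - b`
    by_cases ha : a = 0
    · have hb : b = 0 := by rw [ha] at h; linarith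
      refine ⟨ha, hb, ?_⟩
      have h3 : (t : ℂ) * (w - z) = 0 := by
        rw [ha, hb] at h1
        simpa using h1
      rcases mul_eq_zero.1 h3 with h | h
      · exact_mod_cast h
      · exact absurd h hwz
    · exfalso
      have hb : b = -a := by linarith
      have hw : w = -z := by
        have h3 : (a : ℂ) * z = (a : ℂ) * (-w) := by
          rw [e2, hb]; push_cast; ring
        have h4 := mul_left_cancel₀ (Complex.ofReal_ne_zero.2 ha) h3
        rw [h4, neg_neg]
      rw [hw, hb] at h1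
      have h5 : z * 2 * ((a : ℂ) * Complex.I - (t : ℂ)) = 0 := by
        push_cast at h1
        linear_combination h1
      have h6 : (a : ℂ) * Complex.I - (t : ℂ) = 0 := by
        rcases mul_eq_zero.1 h5 with h | h
        · exact absurd h (mul_ne_zero hz two_ne_zero)
        · exact h
      have h7 := congrArg Complex.im h6
      simp at h7
      exact ha h7

/-- `z ↦ (z, z ^ 2)` -/
noncomputable def sqm (z : ℂ) : ℂ × ℂ := (z, z ^ 2)

theorem sqm_contDiff : ContDiff ℝ ((⊤ : ℕ∞) : WithTop ℕ∞) sqm :=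
  contDiff_id.prodMk (contDiff_id.pow 2)

theorem sqm_fderiv (z u : ℂ) : fderiv ℝ sqm z u = (u, 2 * z * u) := by
  have h1 : HasFDerivAt (fun z : ℂ => z ^ 2)
      ((2 * z) • (ContinuousLinearMap.id ℝ ℂ)) z := by
    have h := (hasFDerivAt_id (𝕜 := ℝ) z).mul (hasFDerivAt_id (𝕜 := ℝ) z)
    have h' : HasFDerivAt (fun z : ℂ => z ^ 2)
        (z • ContinuousLinearMap.id ℝ ℂ + z • ContinuousLinearMap.id ℝ ℂ) z := by
      refine (h.congr_fderiv ?_).congr_of_eventuallyEq (Eventually.of_forall fun w => by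
        simp [pow_two])
      ext <;> simp
    refine h'.congr_fderiv ?_
    ext
    simp
    ring
  have h2 : HasFDerivAt sqm ((ContinuousLinearMap.id ℝ ℂ).prod
      ((2 * z) • (ContinuousLinearMap.id ℝ ℂ))) z := (hasFDerivAt_id z).prodMk h1
  rw [h2.fderiv]
  simp

/-- The circle has a totally skew embedding in four-space. -/
theorem circle_four : ∃ f : Circle → EuclideanSpace ℝ (Fin 4),
    ContMDiff (𝓡 1) (𝓡 4) ((⊤ : ℕ∞) : WithTop ℕ∞) f ∧ IsEmbedding f ∧ Skew (𝓡 1) f := by
  have : Fact (finrank ℝ ℂ = 1 + 1) := finrank_real_complex_fact'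
  let e : (ℂ × ℂ) ≃L[ℝ] EuclideanSpace ℝ (Fin 4) := ContinuousLinearEquiv.ofFinrankEq (by
    simp [finrank_prod, Complex.finrank_real_complex])
  let g : ℂ → EuclideanSpace ℝ (Fin 4) := fun z => e (sqm z)
  have hgc : ContDiff ℝ ((⊤ : ℕ∞) : WithTop ℕ∞) g := e.contDiff.comp sqm_contDiff
  have hgd : ∀ z u, fderiv ℝ g z u = e (u, 2 * z * u) := by
    intro z u
    have h1 : HasFDerivAt sqm (fderiv ℝ sqm z) z :=
      (sqm_contDiff.differentiable (by simp) z).hasFDerivAt
    have h2 : HasFDerivAt g ((e : (ℂ × ℂ) →L[ℝ] _).comp (fderiv ℝ sqm z)) z :=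
      e.hasFDerivAt.comp z h1
    rw [h2.fderiv]
    simp [sqm_fderiv]
  have hcoe : ContMDiff (𝓡 1) 𝓘(ℝ, ℂ) ((⊤ : ℕ∞) : WithTop ℕ∞) (fun z : Circle => (z : ℂ)) := by
    exact contMDiff_coe_sphere
  have hge : IsEmbedding g := by
    have hl : LeftInverse (Prod.fst : ℂ × ℂ → ℂ) sqm := fun x => rfl
    exact e.toHomeomorph.isEmbedding.comp (hl.isEmbedding continuous_fst sqm_contDiff.continuous)
  have hgsm : ContMDiff 𝓘(ℝ, ℂ) (𝓡 4) ((⊤ : ℕ∞) : WithTop ℕ∞) g := hgc.contMDiff
  refine ⟨g ∘ (fun z : Circle => (z : ℂ)), hgsm.comp hcoe, hge.comp IsEmbedding.subtypeVal, ?_⟩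
  -- the derivative along the exponential
  have hd : ∀ (s : ℝ) (c : ℝ), dch (𝓡 1) (g ∘ (fun z : Circle => (z : ℂ))) (Circle.exp s)
      (c • wexp s) = e ((c : ℂ) * ((Circle.exp s : ℂ) * Complex.I),
        (c : ℂ) * (2 * (Circle.exp s : ℂ) * ((Circle.exp s : ℂ) * Complex.I))) := by
    intro s c
    have h1 := hasDerivAt_comp_exp s (fun z : Circle => (z : ℂ))
      (mdifferentiableAt_circle_coe _)
    have h2 : HasDerivAt (fun s : ℝ => ((Circle.exp s : Circle) : ℂ))
        ((Circle.exp s : ℂ) * Complex.I) s := by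
      have h3 : HasDerivAt (fun s : ℝ => (s : ℂ) * Complex.I) (1 * Complex.I) s :=
        (Complex.ofRealCLM.hasDerivAt).mul_const Complex.I
      have h4 := h3.cexp
      simpa using h4
    have h5 := h1.unique h2
    rw [dch_comp (𝓡 1) (mdifferentiableAt_circle_coe _)
      (hgc.differentiable (by simp) _), ContinuousLinearMap.comp_apply, map_smul, h5, hgd]
    congr 1
    refine Prod.ext ?_ ?_
    · simp
    · simp; ring
  intro p q hpq u v t heq
  obtain ⟨s, rfl⟩ := Circle.exp_surjective p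
  obtain ⟨r, rfl⟩ := Circle.exp_surjective q
  have hfr : finrank ℝ (EuclideanSpace ℝ (Fin 1)) = 1 := by simp
  obtain ⟨a, ha⟩ := (finrank_eq_one_iff_of_nonzero' (wexp s) (wexp_ne_zero s)).1 hfr u
  obtain ⟨b, hb⟩ := (finrank_eq_one_iff_of_nonzero' (wexp r) (wexp_ne_zero r)).1 hfr v
  have h1 : dch (𝓡 1) (g ∘ (fun z : Circle => (z : ℂ))) (Circle.exp s) u
    + dch (𝓡 1) (g ∘ (fun z : Circle => (z : ℂ))) (Circle.exp r) v
    + t • ((g ∘ (fun z : Circle => (z : ℂ))) (Circle.exp r)
      - (g ∘ (fun z : Circle => (z : ℂ))) (Circle.exp s)) = 0 := heq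
  rw [← ha, ← hb, hd, hd] at h1
  have h2 : e ((a : ℂ) * ((Circle.exp s : ℂ) * Complex.I),
        (a : ℂ) * (2 * (Circle.exp s : ℂ) * ((Circle.exp s : ℂ) * Complex.I)))
      + e ((b : ℂ) * ((Circle.exp r : ℂ) * Complex.I),
        (b : ℂ) * (2 * (Circle.exp r : ℂ) * ((Circle.exp r : ℂ) * Complex.I)))
      + t • (e (sqm (Circle.exp r : ℂ)) - e (sqm (Circle.exp s : ℂ))) = 0 := h1
  rw [← map_sub, ← map_smul, ← map_add, ← map_add] at h2
  have h3 := (map_eq_zero_iff e e.injective).1 h2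
  simp only [sqm, Prod.mk_sub_mk, Prod.smul_mk, Prod.mk_add_mk, Prod.mk_eq_zero,
    Complex.real_smul] at h3
  have hne : (Circle.exp s : ℂ) ≠ (Circle.exp r : ℂ) := fun h => hpq (Subtype.ext h)
  obtain ⟨h4, h5, h6⟩ := circle_alg (z := (Circle.exp s : ℂ)) (w := (Circle.exp r : ℂ))
    (Circle.coe_ne_zero _) hne (by rw [Circle.norm_coe, Circle.norm_coe]) h3.1 h3.2
  refine ⟨?_, ?_, h6⟩
  · rw [← ha, h4, zero_smul]
  · rw [← hb, h5, zero_smul]

/-! ## Restriction to smaller Euclidean spaces -/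

theorem PE_restrict {j k N : ℕ} (hjk : j ≤ k) (h : PE k N) : PE j N := by
  obtain ⟨f, hf, hemb, hsk⟩ := h
  obtain ⟨ι, hι⟩ : ∃ ι : EuclideanSpace ℝ (Fin j) →ₗ[ℝ] EuclideanSpace ℝ (Fin k),
      Injective ι := by
    exact finrank_le_iff_exists_linearMap.1 (by simpa using hjk)
  let κ : EuclideanSpace ℝ (Fin j) →L[ℝ] EuclideanSpace ℝ (Fin k) := LinearMap.toContinuousLinearMap ι
  have hκ : Injective κ := hι
  have hκe : IsEmbedding κ :=
    (LinearMap.isClosedEmbedding_of_injective (LinearMap.ker_eq_bot.2 hι)).isEmbedding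
  have hd : ∀ x, fderiv ℝ (fun x => f (κ x)) x = (fderiv ℝ f (κ x)).comp κ := by
    intro x
    have h1 : HasFDerivAt f (fderiv ℝ f (κ x)) (κ x) :=
      (hf.differentiable (by simp) _).hasFDerivAt
    exact (h1.comp x κ.hasFDerivAt).fderiv
  refine ⟨fun x => f (κ x), hf.comp κ.contDiff, hemb.comp hκe, ?_⟩
  intro x y hxy u v t heq
  rw [hd, hd] at heq
  obtain ⟨h1, h2, h3⟩ := hsk (κ x) (κ y) (fun h => hxy (hκ h)) (κ u) (κ v) t heq
  exact ⟨hκ (h1.trans (map_zero κ).symm), hκ (h2.trans (map_zero κ).symm), h3⟩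

/-! ## The plane has no totally skew embedding in five-space -/

theorem PE_two {b : ℕ} (h : PE 2 b) : 6 ≤ b := by
  obtain ⟨f, hf, hemb, hsk⟩ := h
  have hs : Skew (𝓡 2) f := by
    intro p q hpq u v t heq
    have h1 : dch (𝓡 2) f p u + dch (𝓡 2) f q v + t • (f q - f p) = 0 := heq
    rw [dch_self, dch_self] at h1
    exact hsk p q hpq u v t h1
  obtain ⟨p, q, hpq⟩ := exists_pair_ne (EuclideanSpace ℝ (Fin 2))
  have h5 := hs.dim_le p q hpq
  by_contra hlt
  have hb : b = 5 := by omega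
  subst hb
  let e0 : EuclideanSpace ℝ (Fin 2) := EuclideanSpace.single 0 1
  let e1 : EuclideanSpace ℝ (Fin 2) := EuclideanSpace.single 1 1
  let V : EuclideanSpace ℝ (Fin 2) → EuclideanSpace ℝ (Fin 2) → Fin 5 →
      EuclideanSpace ℝ (Fin 5) := fun x y =>
    ![fderiv ℝ f x e0, fderiv ℝ f x e1, fderiv ℝ f y e0, fderiv ℝ f y e1, f y - f x]
  let M : EuclideanSpace ℝ (Fin 2) → EuclideanSpace ℝ (Fin 2) → Matrix (Fin 5) (Fin 5) ℝ :=
    fun x y => Matrix.of fun i j => V x y i j
  have hdet : ∀ x y, x ≠ y → (M x y).det ≠ 0 := by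
    intro x y hxy h0
    obtain ⟨w, hw0, hw⟩ := Matrix.exists_vecMul_eq_zero_iff.2 h0
    have h1 : fderiv ℝ f x (w 0 • e0 + w 1 • e1) + fderiv ℝ f y (w 2 • e0 + w 3 • e1)
        + w 4 • (f y - f x) = 0 := by
      ext j
      have h2 := congrFun hw j
      simp only [Matrix.vecMul, dotProduct, Fin.sum_univ_five, M, V, Matrix.of_apply] at h2
      simp only [map_add, map_smul, PiLp.add_apply, PiLp.smul_apply, smul_eq_mul,
        PiLp.zero_apply]
      simpa [add_assoc] using h2
    obtain ⟨h2, h3, h4⟩ := hsk x y hxy _ _ _ h1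
    apply hw0
    have a0 := congrArg (fun z : EuclideanSpace ℝ (Fin 2) => z 0) h2
    have a1 := congrArg (fun z : EuclideanSpace ℝ (Fin 2) => z 1) h2
    have a2 := congrArg (fun z : EuclideanSpace ℝ (Fin 2) => z 0) h3
    have a3 := congrArg (fun z : EuclideanSpace ℝ (Fin 2) => z 1) h3
    simp [e0, e1] at a0 a1 a2 a3
    funext i
    fin_cases i
    · exact a0
    · exact a1
    · exact a2
    · exact a3
    · exact h4
  have hswap : ∀ x y, (M y x).det = - (M x y).det := by
    intro x y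
    let σ : Equiv.Perm (Fin 5) := Equiv.swap 0 2 * Equiv.swap 1 3
    have h1 : M y x = Matrix.of fun i j => (![1, 1, 1, 1, -1] : Fin 5 → ℝ) i *
        ((M x y).submatrix σ id) i j := by
      ext i j
      have hσ0 : σ 0 = 2 := by decide
      have hσ1 : σ 1 = 3 := by decide
      have hσ2 : σ 2 = 0 := by decide
      have hσ3 : σ 3 = 1 := by decide
      have hσ4 : σ 4 = 4 := by decide
      fin_cases i
      · simp [M, V, hσ0]
      · simp [M, V, hσ1]
      · simp [M, V, hσ2]
      · simp [M, V, hσ3]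
      · simp [M, V, hσ4]
    have hsg : Equiv.Perm.sign σ = 1 := by decide
    rw [h1, Matrix.det_mul_column, Matrix.det_permute, hsg]
    simp [Fin.prod_univ_five]
  let γ : ℝ → EuclideanSpace ℝ (Fin 2) := fun θ => !₂[Real.cos θ, Real.sin θ]
  have hγ : Continuous γ := by
    refine (PiLp.continuous_toLp 2 (fun _ : Fin 2 => ℝ)).comp (continuous_pi fun i => ?_)
    fin_cases i
    · exact Real.continuous_cos
    · exact Real.continuous_sin
  have hfd : Continuous (fderiv ℝ f) := hf.continuous_fderiv (by simp)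
  have hfc : Continuous f := hf.continuous
  have hcont : Continuous fun θ => (M (γ θ) (-γ θ)).det := by
    refine Continuous.matrix_det (continuous_matrix fun i j => ?_)
    have hc : ∀ g : ℝ → EuclideanSpace ℝ (Fin 5), Continuous g → Continuous fun θ => g θ j :=
      fun g hg => (continuous_apply j).comp ((PiLp.continuous_ofLp 2 _).comp hg)
    have hfx : ∀ e, Continuous fun θ => fderiv ℝ f (γ θ) e := fun e =>
      (hfd.comp hγ).clm_apply continuous_const
    have hfy : ∀ e, Continuous fun θ => fderiv ℝ f (-γ θ) e := fun e =>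
      (hfd.comp hγ.neg).clm_apply continuous_const
    fin_cases i
    · exact hc _ (hfx e0)
    · exact hc _ (hfx e1)
    · exact hc _ (hfy e0)
    · exact hc _ (hfy e1)
    · exact hc _ ((hfc.comp hγ.neg).sub (hfc.comp hγ))
  have hγne : ∀ θ, γ θ ≠ -γ θ := by
    intro θ hθ
    have h0 := congrArg (fun z : EuclideanSpace ℝ (Fin 2) => z 0) hθ
    have h1 := congrArg (fun z : EuclideanSpace ℝ (Fin 2) => z 1) hθ
    simp [γ] at h0 h1
    have h2 : Real.cos θ = 0 := by linarith
    have h3 : Real.sin θ = 0 := by linarith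
    have h4 := Real.sin_sq_add_cos_sq θ
    rw [h2, h3] at h4
    norm_num at h4
  have hπ : γ Real.pi = -γ 0 := by
    ext i
    fin_cases i
    · simp [γ]
    · simp [γ]
  have hval : (M (γ Real.pi) (-γ Real.pi)).det = - (M (γ 0) (-γ 0)).det := by
    rw [hπ, neg_neg, hswap]
  have hne0 := hdet _ _ (hγne 0)
  rcases lt_or_gt_of_ne hne0 with h | h
  · obtain ⟨θ, -, hθ⟩ := intermediate_value_Icc Real.pi_pos.le hcont.continuousOn
      (show (0 : ℝ) ∈ Set.Icc ((M (γ 0) (-γ 0)).det) ((M (γ Real.pi) (-γ Real.pi)).det) from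
        ⟨h.le, by rw [hval]; linarith⟩)
    exact hdet _ _ (hγne θ) hθ
  · obtain ⟨θ, -, hθ⟩ := intermediate_value_Icc' Real.pi_pos.le hcont.continuousOn
      (show (0 : ℝ) ∈ Set.Icc ((M (γ Real.pi) (-γ Real.pi)).det) ((M (γ 0) (-γ 0)).det) from
        ⟨by rw [hval]; linarith, h.le⟩)
    exact hdet _ _ (hγne θ) hθ

end Pool.Agent.Helper85.TSO
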